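import Pool.Agent.P.MP_f981b0_an.Bish.Strong

/-!
Every weighted composition operator `f ↦ w * (f ∘ τ)` on `L^p`, `1 ≤ p < ∞`, with `τ` measure
preserving and aperiodic, `w` essentially bounded, not zero, and `log |w|` integrable, has a
nontrivial closed hyperinvariant subspace. Bishop operators `f ↦ x f({x + α})`, `α` any irrational
number, are the case checked in `Pool/Agent/P/MP_f981b0_an/Bish/Instance.lean`.
-/

open MeasureTheory
open scoped ENNReal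

namespace Pool.Agent.Results.MP_f981b0_an.BishopAll

theorem result {X : Type*} [MeasurableSpace X] [StandardBorelSpace X]
    (μ : Measure X) [IsProbabilityMeasure μ]
    (τ : X → X) (hτ : MeasurePreserving τ μ μ)
    (aperiodic : ∀ n : ℕ, 0 < n → μ {x | τ^[n] x = x} = 0)
    (w : X → ℂ) (hw : MemLp w ∞ μ) (hw0 : ¬ w =ᵐ[μ] 0)
    (hlog : Integrable (fun x => Real.log ‖w x‖) μ)
    (p : ℝ≥0∞) [Fact (1 ≤ p)] (hp : p ≠ ∞) :
    ∃ T : Lp ℂ p μ →L[ℂ] Lp ℂ p μ, (∀ f, T f =ᵐ[μ] fun x => w x * f (τ x)) ∧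
      ∃ V : Submodule ℂ (Lp ℂ p μ), IsClosed (V : Set (Lp ℂ p μ)) ∧ V ≠ ⊥ ∧ V ≠ ⊤ ∧
        ∀ Y : Lp ℂ p μ →L[ℂ] Lp ℂ p μ, Y * T = T * Y → ∀ f ∈ V, Y f ∈ V :=
  Pool.Agent.P.MP_f981b0_an.Bish.strong μ τ hτ aperiodic w hw hw0 hlog p hp

end Pool.Agent.Results.MP_f981b0_an.BishopAll
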